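import Pool.Agent.Helper54.SL.Main
import Pool.Agent.Helper54.PW.Final

set_option autoImplicit false
open scoped Pointwise
open Pool.Agent.Helper54.PW

namespace Pool.Agent.Helper54.SL

theorem realAct_map {k : Type} [Field k] {G G' : Type} [Group G] [Group G'] (π : G →* G')
    (hπ : Function.Surjective π) (P : Subgroup G) (h : RealAct k P) : RealAct k (P.map π) := by
  obtain ⟨F, _, _, hfd, hgal, ρ, hρ, h1, A, hA, hAk, hX, h2⟩ := h
  refine ⟨F, _, _, hfd, hgal, π.comp ρ, hπ.comp hρ, ?_, A, hA, hAk, hX, ?_⟩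
  · intro A' hA' hA'k hX' σ hσ
    rw [MonoidHom.comp_apply, h1 A' hA' hA'k hX' σ hσ, map_one]
  · intro g
    constructor
    · rintro ⟨g', hg', rfl⟩
      obtain ⟨σ, hσ, hσg⟩ := (h2 g').1 hg'
      exact ⟨σ, hσ, by rw [MonoidHom.comp_apply, hσg]⟩
    · rintro ⟨σ, hσ, rfl⟩
      exact ⟨ρ σ, (h2 _).2 ⟨σ, hσ, rfl⟩, rfl⟩

theorem dvd_card_sl2 {p : ℕ} [Fact p.Prime] (𝔽 : Type) [Field 𝔽] [Finite 𝔽] [CharP 𝔽 p] :
    p ∣ Nat.card (Matrix.SpecialLinearGroup (Fin 2) 𝔽) := by
  let u : Matrix.SpecialLinearGroup (Fin 2) 𝔽 := ⟨!![1, 1; 0, 1], by simp [Matrix.det_fin_two]⟩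
  have hpow : ∀ i : ℕ, (u ^ i).1 = !![1, (i : 𝔽); 0, 1] := by
    intro i
    induction i with
    | zero =>
      simp only [pow_zero, Matrix.SpecialLinearGroup.coe_one, Nat.cast_zero]
      ext a b; fin_cases a <;> fin_cases b <;> rfl
    | succ i ih =>
      have h1 : (u ^ (i + 1)).1 = (u ^ i).1 * u.1 := by rw [pow_succ]; rfl
      rw [h1, ih]
      ext a b; fin_cases a <;> fin_cases b <;> simp [u, Matrix.mul_apply, Fin.sum_univ_two]
      ring
  have h1 : u ^ p = 1 := by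
    apply Subtype.ext
    rw [hpow, CharP.cast_eq_zero]
    ext a b; fin_cases a <;> fin_cases b <;> rfl
  have h2 : u ≠ 1 := by
    intro h
    have := congrArg (fun m : Matrix.SpecialLinearGroup (Fin 2) 𝔽 => m.1 0 1) h
    simp [u] at this
  have h3 : orderOf u = p := orderOf_eq_prime h1 h2
  rw [← h3]
  exact orderOf_dvd_natCard u

/-- the purely wild inertia conjecture, one branch point, for all finite groups `G` having a normal
`p`-subgroup `N` such that `G/N` is a quotient of `SL_2` of a finite field of characteristic `p ≥ 5` -/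
theorem realizable_sl2 {p : ℕ} [Fact p.Prime] (hp5 : 5 ≤ p) {k 𝔽 : Type} [Field k]
    [IsAlgClosed k] [CharP k p] [Field 𝔽] [Finite 𝔽] [CharP 𝔽 p] (G : Type) [Group G] [Finite G]
    (N : Subgroup G) [N.Normal] (hN : IsPGroup p N)
    (π : Matrix.SpecialLinearGroup (Fin 2) 𝔽 →* G ⧸ N) (hπ : Function.Surjective π)
    (P : Subgroup G) (hP : IsPGroup p P) (hgen : Subgroup.normalClosure (P : Set G) = ⊤)
    (x : ValuationSubring (RatFunc k)) (hx : x ≠ ⊤)
    (hxk : ∀ c : k, algebraMap k (RatFunc k) c ∈ x) :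
    Realizable k G (fun _ : Fin 1 => P) (fun _ => x) := by
  classical
  let _ : Fintype 𝔽 := Fintype.ofFinite 𝔽
  obtain ⟨n, -, hcard⟩ := FiniteField.card 𝔽 p
  refine reduction_aux x hx hxk _ G rfl N hN P hP hgen ?_
  have hP' : IsPGroup p (P.map (QuotientGroup.mk' N)) := hP.map _
  have hgen' : Subgroup.normalClosure ((P.map (QuotientGroup.mk' N) : Subgroup (G ⧸ N)) :
      Set (G ⧸ N)) = ⊤ := by
    have h1 := Subgroup.map_normalClosure (P : Set G) (QuotientGroup.mk' N)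
      (QuotientGroup.mk'_surjective N)
    rw [hgen, ← MonoidHom.range_eq_map,
      MonoidHom.range_eq_top.2 (QuotientGroup.mk'_surjective N)] at h1
    rw [Subgroup.coe_map]
    exact h1.symm
  obtain ⟨P₁, hP₁, hP₁ne, hP₁π⟩ := exists_lift_pgroup π hπ _ hP' (dvd_card_sl2 𝔽) hgen'
  have h1 : RealAct k P₁ := realAct_sl2 hp5 n.pos hcard P₁ hP₁ hP₁ne
  have h2 := realAct_map π hπ P₁ h1
  rw [hP₁π] at h2
  exact realizable_of_realAct _ h2 x hx hxk

end Pool.Agent.Helper54.SL
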