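import Pool.Agent.Helper54.PW.Final
import Pool.Agent.Helper14.SL.Roots
import Pool.Agent.Helper21.SL.Cover
import Pool.Agent.Helper21.SL.Rep
import Pool.Agent.Helper21.SL.Small
import Pool.Agent.Helper93.SL.FinitePlace
import Pool.Agent.Helper93.SL.Estimate
import Pool.Agent.Helper16.SL.Immediate
import Pool.Agent.Helper16.SL.Sylow
import Pool.Agent.Helper86.SL.Inertia
import Pool.Agent.Helper79.SL.Norm
import Pool.Agent.Helper71.SL.Consts
import Pool.Agent.Helper87.SL.Degree
import Pool.Agent.Helper73.SL.Index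
import Pool.Agent.Helper30.SL.Group

set_option autoImplicit false
open scoped Pointwise
open Pool.Agent.Helper54.PW

namespace Pool.Agent.Helper54.SL

/-- an element `a` of a field extension of the algebraically closed field `k` with `a^q = a`, `q = |𝔽|`, comes
from `𝔽` -/
theorem exists_iota {q : ℕ} {R 𝔽 : Type} [Field R] [Field 𝔽] [Fintype 𝔽]
    (h𝔽 : Fintype.card 𝔽 = q) (hq : 1 < q) (ι : 𝔽 →+* R) (a : R) (ha : a ^ q = a) :
    ∃ b : 𝔽, ι b = a := by
  classical
  by_contra hcon
  push Not at hcon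
  have hP : (Polynomial.X ^ q - Polynomial.X : Polynomial R) ≠ 0 :=
    FiniteField.X_pow_card_sub_X_ne_zero R hq
  let S : Finset R := insert a (Finset.univ.image ι)
  have hS : S.card = q + 1 := by
    rw [Finset.card_insert_of_notMem, Finset.card_image_of_injective _ ι.injective,
      Finset.card_univ, h𝔽]
    intro h
    obtain ⟨b, -, hb⟩ := Finset.mem_image.1 h
    exact hcon b hb
  have hsub : S ⊆ (Polynomial.X ^ q - Polynomial.X : Polynomial R).roots.toFinset := by
    intro x hx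
    rw [Multiset.mem_toFinset, Polynomial.mem_roots hP, Polynomial.IsRoot]
    rcases Finset.mem_insert.1 hx with rfl | hx
    · simp [ha]
    · obtain ⟨b, -, rfl⟩ := Finset.mem_image.1 hx
      have : b ^ q = b := by rw [← h𝔽]; exact FiniteField.pow_card b
      simp [← map_pow, this]
  have h1 := Finset.card_le_card hsub
  have h2 := Multiset.toFinset_card_le (Polynomial.X ^ q - Polynomial.X : Polynomial R).roots
  have h3 := Polynomial.card_roots' (Polynomial.X ^ q - Polynomial.X : Polynomial R)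
  rw [FiniteField.X_pow_card_sub_X_natDegree_eq R hq] at h3
  omega

/-- a place at infinity of a finite extension of `k(X)` -/
theorem exists_infinite_place (k L : Type) [Field k] [Field L] [Algebra k L]
    [Algebra (RatFunc k) L] [IsScalarTower k (RatFunc k) L] :
    ∃ A : ValuationSubring L, IsPlace k A ∧ tX k L ∉ A := by
  classical
  let x : ValuationSubring (RatFunc k) := (RatFunc.inftyValuation k).valuationSubring
  have hX : (RatFunc.X : RatFunc k) ∉ x := by
    intro h
    have h1 : RatFunc.inftyValuation k RatFunc.X ≤ 1 := h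
    rw [RatFunc.inftyValuation.X] at h1
    have h2 : (1 : WithZero (Multiplicative ℤ)) < WithZero.exp (1 : ℤ) := by
      rw [← WithZero.exp_zero]
      exact WithZero.exp_lt_exp.2 one_pos
    exact absurd h1 (not_le.2 h2)
  have hxk : ∀ c : k, algebraMap k (RatFunc k) c ∈ x := by
    intro c
    show RatFunc.inftyValuation k (algebraMap k (RatFunc k) c) ≤ 1
    by_cases hc : c = 0
    · rw [hc, map_zero, map_zero]; exact zero_le_one
    · have : algebraMap k (RatFunc k) c = RatFunc.C c := by rw [RatFunc.algebraMap_eq_C]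
      rw [this, RatFunc.inftyValuation.C k hc]
  have hx : x ≠ ⊤ := by
    intro h
    apply hX
    rw [h]; trivial
  obtain ⟨A, hA, hAx⟩ := exists_place_extension (k := k) (L := RatFunc k) (Ω := L) x ⟨hx, hxk⟩
  refine ⟨A, hA, fun h => hX ?_⟩
  rw [← hAx]
  exact h

theorem realAct_sl2 {p n : ℕ} [Fact p.Prime] (hp5 : 5 ≤ p) (hn : 0 < n) {k 𝔽 : Type} [Field k]
    [IsAlgClosed k] [CharP k p] [Field 𝔽] [Fintype 𝔽] [CharP 𝔽 p] (h𝔽 : Fintype.card 𝔽 = p ^ n)
    (P : Subgroup (Matrix.SpecialLinearGroup (Fin 2) 𝔽)) (hP : IsPGroup p P) (hP1 : P ≠ ⊥) :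
    RealAct k P := by
  classical
  have hq : 1 < p ^ n := Nat.one_lt_pow hn.ne' (Fact.out : p.Prime).one_lt
  have hp2 : p ≠ 2 := by omega
  -- the embedding of 𝔽 in k
  let _ : Algebra (ZMod p) 𝔽 := ZMod.algebra 𝔽 p
  let _ : Algebra (ZMod p) k := ZMod.algebra k p
  let ι : 𝔽 →+* k := (IsAlgClosed.lift (R := ZMod p) (S := 𝔽) (M := k)).toRingHom
  obtain ⟨g, A₀, hA₀, hPg⟩ := exists_conj_unip hn h𝔽 P hP hP1
  obtain ⟨c, hc1, hc⟩ := exists_consts hn h𝔽 ι A₀ hA₀
  obtain ⟨L, instL, instA, hfd, hgal, z0, z1, hz0, hz1, hzd, hadj⟩ :=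
    exists_split (k := k) hn (algebraMap (Polynomial k) (RatFunc k) (TP p n c))
  let _ : Algebra k L := ((algebraMap (RatFunc k) L).comp (algebraMap k (RatFunc k))).toAlgebra
  have : IsScalarTower k (RatFunc k) L := IsScalarTower.of_algebraMap_eq fun _ => rfl
  have : CharP L p := charP_of_injective_algebraMap (algebraMap k L).injective p
  have hFF : FF k L := ff_of_algebraic k L
  obtain ⟨A, hA, hX⟩ := exists_infinite_place k L
  have hz0' : Rt (p ^ n) (pk k L (TP p n c)) z0 := hz0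
  have hz1' : Rt (p ^ n) (pk k L (TP p n c)) z1 := hz1
  obtain ⟨y0, y1, h0, h1, hd, hres, hbig⟩ := small_root hp2 hn c hFF A hA hX z0 z1 hz0' hz1' hzd
  have hest := estimate hp2 hn c hc1 A hA hX y0 h0 hres
  have hιq : ∀ a : 𝔽, a ^ (p ^ n) = a := fun a => by rw [← h𝔽]; exact FiniteField.pow_card a
  have hιL : ∀ a : 𝔽, (algebraMap k L (ι a)) ^ (p ^ n) = algebraMap k L (ι a) := fun a => by
    rw [← map_pow, ← map_pow, hιq]
  have hfixk : ∀ (σ : L ≃ₐ[RatFunc k] L) (a : k), σ (algebraMap k L a) = algebraMap k L a := by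
    intro σ a
    rw [IsScalarTower.algebraMap_apply k (RatFunc k) L]
    exact σ.commutes _
  have hfixT : ∀ (σ : L ≃ₐ[RatFunc k] L) (f : Polynomial k), σ (pk k L f) = pk k L f := by
    intro σ f
    exact σ.commutes _
  have hfixX : ∀ (σ : L ≃ₐ[RatFunc k] L), σ (tX k L) = tX k L := fun σ => σ.commutes _
  have hσRt : ∀ (σ : L ≃ₐ[RatFunc k] L) (y : L), Rt (p ^ n) (pk k L (TP p n c)) y →
      Rt (p ^ n) (pk k L (TP p n c)) (σ y) := by
    intro σ y hy
    have := congrArg σ hy
    rw [map_add, map_sub, map_mul, map_pow, map_pow, hfixT, map_zero] at this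
    exact this
  have hσdd : ∀ (σ : L ≃ₐ[RatFunc k] L) (a b : L),
      σ (dd (p ^ n) a b) = dd (p ^ n) (σ a) (σ b) := by
    intro σ a b
    simp only [dd, map_sub, map_mul, map_pow]
  have hexι : ∀ a : L, a ^ (p ^ n) = a → ∃ b : 𝔽, algebraMap k L (ι b) = a := fun a ha =>
    exists_iota h𝔽 hq ((algebraMap k L).comp ι) a ha
  have hy00 : y0 ≠ 0 := by
    rintro rfl
    rw [dd, zero_pow (by positivity), zero_mul, zero_mul, sub_zero] at hd
    exact zero_ne_one hd
  -- the decomposition group at the infinite place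
  have hfix : ∀ σ : L ≃ₐ[RatFunc k] L, σ • A = A → σ y0 = y0 ∧
      ∃ a : 𝔽, σ y1 = y1 + algebraMap k L (ι a) * y0 := by
    intro σ hσ
    have hmem : ∀ x : L, x ∈ A → σ x ∈ A := by
      intro x hx
      have : σ • x ∈ σ • A := ValuationSubring.smul_mem_pointwise_smul σ x A hx
      rwa [hσ] at this
    have hmem' : ∀ x : L, x ∈ A.nonunits → σ x ∈ A.nonunits := by
      intro x hx
      by_cases hx0 : x = 0
      · rw [hx0, map_zero, ← hx0]; exact hx
      have hxA : x ∈ A := A.nonunits_subset hx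
      rcases (ValuationSubring.mem_nonunits_iff_or A).1 hx with h | h
      · exact absurd h hx0
      · refine (ValuationSubring.mem_nonunits_iff_or A).2 (Or.inr fun h' => h ?_)
        have hσ' : σ⁻¹ • A = A := by rw [← hσ, inv_smul_smul, hσ]
        have h3 : σ⁻¹ • (σ x)⁻¹ ∈ σ⁻¹ • A := ValuationSubring.smul_mem_pointwise_smul σ⁻¹ _ A h'
        rw [hσ'] at h3
        have h4 : σ⁻¹ • (σ x)⁻¹ = x⁻¹ := by
          rw [← map_inv₀]
          exact σ.symm_apply_apply _
        rwa [h4] at h3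
    have hu : y0 * tX k L ^ (p ^ (n - 1)) ∈ A := by
      have := A.add_mem _ _ (A.nonunits_subset hres) A.one_mem
      rwa [sub_add_cancel] at this
    have hy0A : y0 ∈ A := by
      by_contra h
      -- otherwise y0 X^m is not integral
      have hX' : (tX k L)⁻¹ ∈ A := (A.mem_or_inv_mem _).resolve_left hX
      apply h
      have h2 := A.mul_mem _ _ hu (pow_mem hX' (p ^ (n - 1)))
      have hX0 : tX k L ≠ 0 := fun h => hX (by rw [h]; exact A.zero_mem)
      rwa [inv_pow, mul_assoc, mul_inv_cancel₀ (pow_ne_zero _ hX0), mul_one] at h2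
    have hσy0 : σ y0 = y0 := by
      by_contra hne
      have h2 : ∃ a : L, a ^ (p ^ n) = a ∧ σ y0 = a * y0 := by
        by_contra hcon
        push Not at hcon
        exact hbig (σ y0) (hσRt σ y0 h0) hcon (hmem _ hy0A)
      obtain ⟨a, ha, hσa⟩ := h2
      obtain ⟨b, rfl⟩ := hexι a ha
      have h3 := hmem' _ hres
      rw [map_sub, map_mul, map_pow, hfixX, map_one, hσa] at h3
      have h4 : (algebraMap k L (ι b - 1)) * (y0 * tX k L ^ (p ^ (n - 1))) ∈ A.nonunits := by
        have h5 : (algebraMap k L (ι b) * y0 * tX k L ^ p ^ (n - 1) - 1) -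
            (y0 * tX k L ^ p ^ (n - 1) - 1) ∈ A.nonunits := by
          rw [ValuationSubring.mem_nonunits_iff] at h3 hres ⊢
          exact lt_of_le_of_lt (Valuation.map_sub _ _ _) (max_lt h3 hres)
        have h6 : algebraMap k L (ι b) * y0 * tX k L ^ p ^ (n - 1) - 1 -
            (y0 * tX k L ^ p ^ (n - 1) - 1) =
            (algebraMap k L (ι b - 1)) * (y0 * tX k L ^ (p ^ (n - 1))) := by
          rw [map_sub, map_one]; ring
        rwa [h6] at h5
      have h7 : ι b - 1 ≠ 0 := by
        intro h8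
        apply hne
        rw [hσa, sub_eq_zero.1 h8, map_one, one_mul]
      have h8 : A.valuation (algebraMap k L (ι b - 1)) = 1 := val_const A hA.2 _ h7
      have h9 : A.valuation (y0 * tX k L ^ (p ^ (n - 1))) = 1 := by
        have h10 : A.valuation (y0 * tX k L ^ (p ^ (n - 1)) - 1) < A.valuation (1 : L) := by
          rw [map_one]
          exact (ValuationSubring.mem_nonunits_iff A).1 hres
        have h11 := Valuation.map_add_eq_of_lt_left A.valuation h10
        rw [add_sub_cancel, map_one] at h11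
        exact h11
      rw [ValuationSubring.mem_nonunits_iff, map_mul, h8, h9, one_mul] at h4
      exact lt_irrefl _ h4
    refine ⟨hσy0, ?_⟩
    have h2 := rt_decomp h0 h1 hd (hσRt σ y1 h1)
    have h3 : dd (p ^ n) y0 (σ y1) = 1 := by
      have := hσdd σ y0 y1
      rw [hd, map_one, hσy0] at this
      exact this.symm
    obtain ⟨b, hb⟩ := hexι _ (dd_fix (hσRt σ y1 h1) h1)
    refine ⟨b, ?_⟩
    rw [hb]
    rw [h3, one_mul] at h2
    rw [add_comm]
    exact h2
  have hin := fun a : 𝔽 => inertia_of hn h𝔽 ι A₀ c hc hFF A hA hX y0 y1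
    (fun f hf h => immediate hFF A hA f hf h) hd hest hfix a
  -- the representation
  obtain ⟨ρ, hρ⟩ := exists_rep h𝔽 ((algebraMap k (RatFunc k)).comp ι)
    (algebraMap (Polynomial k) (RatFunc k) (TP p n c)) y0 y1 h0 h1 hd
  have hρ' : ∀ σ : L ≃ₐ[RatFunc k] L,
      σ y0 = algebraMap k L (ι ((ρ σ).1 0 0)) * y0 + algebraMap k L (ι ((ρ σ).1 1 0)) * y1 ∧
      σ y1 = algebraMap k L (ι ((ρ σ).1 0 1)) * y0 + algebraMap k L (ι ((ρ σ).1 1 1)) * y1 := hρ
  clear hρ
  have hιinj : ∀ a b : 𝔽, algebraMap k L (ι a) = algebraMap k L (ι b) → a = b := fun a b h =>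
    ι.injective ((algebraMap k L).injective h)
  have hcoord : ∀ a b a' b' : 𝔽, algebraMap k L (ι a) * y0 + algebraMap k L (ι b) * y1 =
      algebraMap k L (ι a') * y0 + algebraMap k L (ι b') * y1 → a = a' ∧ b = b' := by
    intro a b a' b' h
    obtain ⟨h2, h3⟩ := coord_unique hd (hιL a) (hιL b) (hιL a') (hιL b') h
    exact ⟨hιinj _ _ h2, hιinj _ _ h3⟩
  have hρinj : Function.Injective ρ := by
    rw [injective_iff_map_eq_one]
    intro σ hσ
    obtain ⟨h2, h3⟩ := hρ' σ
    rw [hσ] at h2 h3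
    simp at h2 h3
    have hgen : ∀ z : L, Rt (p ^ n) (pk k L (TP p n c)) z → σ z = z := by
      intro z hz
      have h4 := rt_decomp h0 h1 hd hz
      obtain ⟨a, ha⟩ := hexι _ (dd_fix hz h1)
      obtain ⟨b, hb⟩ := hexι _ (dd_fix h0 hz)
      rw [← ha, ← hb] at h4
      rw [h4, map_add, map_mul, map_mul, hfixk, hfixk, h2, h3]
    have hle : IntermediateField.adjoin (RatFunc k) {z0, z1} ≤
        IntermediateField.fixedField (Subgroup.zpowers σ) := by
      rw [IntermediateField.adjoin_le_iff]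
      have hmem : ∀ z : L, Rt (p ^ n) (pk k L (TP p n c)) z →
          z ∈ IntermediateField.fixedField (Subgroup.zpowers σ) := by
        intro z hz
        rintro ⟨τ, hτ⟩
        obtain ⟨i, rfl⟩ := Subgroup.mem_zpowers_iff.1 hτ
        show (σ ^ i) z = z
        have h5 : σ ∈ MulAction.stabilizer (L ≃ₐ[RatFunc k] L) z := hgen z hz
        exact Subgroup.zpow_mem _ h5 i
      intro z hz
      rcases hz with rfl | hz
      · exact hmem _ hz0'
      · rw [Set.mem_singleton_iff] at hz
        rw [hz]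
        exact hmem _ hz1'
    rw [hadj] at hle
    ext z
    have h6 := hle (show z ∈ (⊤ : IntermediateField (RatFunc k) L) from trivial)
    exact h6 ⟨σ, Subgroup.mem_zpowers σ⟩
  have hρsurj : Function.Surjective ρ := by
    rw [← MonoidHom.range_eq_top]
    obtain ⟨a, ha, ha0⟩ : ∃ a ∈ A₀, a ≠ 0 := by
      by_contra hcon
      push Not at hcon
      apply hA₀
      rw [eq_bot_iff]
      intro a ha
      exact hcon a ha
    obtain ⟨σ, hσA, hσ1⟩ := (hin a).1 ha
    have hσ0 := (hfix σ hσA).1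
    refine sl2_top hn h𝔽 ρ.range ?_ a ha0 (ρ σ) ⟨σ, rfl⟩ ?_ ?_
    · intro a b hab
      have hy : Rt (p ^ n) (pk k L (TP p n c))
          (algebraMap k L (ι a) * y0 + algebraMap k L (ι b) * y1) :=
        rt_add (rt_smul (hιL a) h0) (rt_smul (hιL b) h1)
      have hne : algebraMap k L (ι a) * y0 + algebraMap k L (ι b) * y1 ≠ 0 := by
        intro h
        have h2 : algebraMap k L (ι a) * y0 + algebraMap k L (ι b) * y1 =
          algebraMap k L (ι 0) * y0 + algebraMap k L (ι 0) * y1 := by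
          rw [h, map_zero, map_zero, zero_mul, zero_mul, add_zero]
        obtain ⟨h3, h4⟩ := hcoord _ _ _ _ h2
        rcases hab with h | h
        · exact h h3
        · exact h h4
      obtain ⟨τ, e, he, hτ⟩ := orbit hn c A hA hX y0 hbig _ hy hne
      obtain ⟨e', rfl⟩ := hexι e he
      refine ⟨ρ τ, ⟨τ, rfl⟩, e', ?_⟩
      obtain ⟨h5, h6⟩ := hρ' τ
      rw [map_add, map_mul, map_mul, hfixk, hfixk, h5, h6] at hτ
      apply hcoord
      rw [map_zero, map_zero, zero_mul, add_zero, ← hτ]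
      simp only [map_add, map_mul]
      ring
    · obtain ⟨h5, h6⟩ := hρ' σ
      rw [hσ0] at h5
      rw [hσ1] at h6
      obtain ⟨h7, h8⟩ := hcoord 1 0 ((ρ σ).1 0 0) ((ρ σ).1 1 0) (by
        rw [← h5, map_one, map_one, map_zero, map_zero, one_mul, zero_mul, add_zero])
      obtain ⟨h9, h10⟩ := hcoord a 1 ((ρ σ).1 0 1) ((ρ σ).1 1 1) (by
        rw [← h6, map_one, map_one, one_mul, add_comm])
      ext i j
      fin_cases i <;> fin_cases j <;> simp [← h7, ← h8, ← h9, ← h10]
    · have h2 := card_ge_of hp5 hn (fun hF A hA f hf h => immediate hF A hA f hf h) c y0 y1 h0 h1 hd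
      rwa [Nat.card_congr (MonoidHom.ofInjective hρinj).toEquiv] at h2
  -- conclusion
  refine ⟨L, instL, instA, hfd, hgal,
    (MulAut.conj g⁻¹).toMonoidHom.comp ρ, ?_, ?_, A, hA.1, hA.2, hX, ?_⟩
  · exact (MulAut.conj g⁻¹).surjective.comp hρsurj
  · intro A' hA' hA'k hXA' σ hσ
    have hTA : algebraMap (RatFunc k) L (algebraMap (Polynomial k) (RatFunc k) (TP p n c)) ∈ A' := by
      have : ∀ f : Polynomial k, pk k L f ∈ A' := by
        intro f
        induction f using Polynomial.induction_on' with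
        | add f g hf hg => rw [map_add]; exact A'.add_mem _ _ hf hg
        | monomial i a =>
          rw [← Polynomial.C_mul_X_pow_eq_monomial, map_mul, map_pow, pk_C, pk_X]
          exact A'.mul_mem _ _ (hA'k a) (pow_mem hXA' i)
      exact this _
    have h2 := fixed_of_rt (k := k) hn hFF A' ⟨hA', hA'k⟩ _ hTA σ hσ y0 h0
    have h3 := fixed_of_rt (k := k) hn hFF A' ⟨hA', hA'k⟩ _ hTA σ hσ y1 h1
    have h4 : ρ σ = 1 := by
      obtain ⟨h5, h6⟩ := hρ' σ
      rw [h2] at h5
      rw [h3] at h6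
      obtain ⟨h7, h8⟩ := hcoord 1 0 ((ρ σ).1 0 0) ((ρ σ).1 1 0) (by
        rw [← h5, map_one, map_one, map_zero, map_zero, one_mul, zero_mul, add_zero])
      obtain ⟨h9, h10⟩ := hcoord 0 1 ((ρ σ).1 0 1) ((ρ σ).1 1 1) (by
        rw [← h6, map_one, map_one, map_zero, map_zero, one_mul, zero_mul, zero_add])
      ext i j
      fin_cases i <;> fin_cases j <;> simp [← h7, ← h8, ← h9, ← h10]
    rw [MonoidHom.comp_apply, h4, map_one]
  · intro h
    rw [hPg]
    have hkey : ∀ (σ : L ≃ₐ[RatFunc k] L) (a : 𝔽), σ y0 = y0 →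
        (σ y1 = y1 + algebraMap k L (ι a) * y0 ↔ (ρ σ).1 = !![1, a; 0, 1]) := by
      intro σ a hσ0
      obtain ⟨h5, h6⟩ := hρ' σ
      constructor
      · intro hσ1
        rw [hσ0] at h5
        rw [hσ1] at h6
        obtain ⟨h7, h8⟩ := hcoord 1 0 ((ρ σ).1 0 0) ((ρ σ).1 1 0) (by
          rw [← h5, map_one, map_one, map_zero, map_zero, one_mul, zero_mul, add_zero])
        obtain ⟨h9, h10⟩ := hcoord a 1 ((ρ σ).1 0 1) ((ρ σ).1 1 1) (by
          rw [← h6, map_one, map_one, one_mul, add_comm])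
        ext i j
        fin_cases i <;> fin_cases j <;> simp [← h7, ← h8, ← h9, ← h10]
      · intro hσ
        rw [h6, hσ]
        simp [add_comm]
    constructor
    · rintro ⟨a, ha, hga⟩
      obtain ⟨σ, hσA, hσ1⟩ := (hin a).1 ha
      refine ⟨σ, hσA, ?_⟩
      have h2 := (hkey σ a (hfix σ hσA).1).1 hσ1
      have h3 : ρ σ = g * h * g⁻¹ := Subtype.ext (by rw [h2, ← hga])
      show g⁻¹ * ρ σ * g⁻¹⁻¹ = h
      rw [h3]; group
    · rintro ⟨σ, hσA, rfl⟩
      obtain ⟨hσ0, a, hσ1⟩ := hfix σ hσA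
      refine ⟨a, (hin a).2 ⟨σ, hσA, hσ1⟩, ?_⟩
      rw [← (hkey σ a hσ0).1 hσ1]
      have h2 : g * (g⁻¹ * ρ σ * g⁻¹⁻¹) * g⁻¹ = ρ σ := by group
      exact congrArg Subtype.val h2

end Pool.Agent.Helper54.SL
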