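import Pool.Agent.Helper92.PW.DefsReal

/-!
# Definitions for the SL_2-covers with small wild inertia

`dd q a b = a b^q - a^q b` is the Moore determinant, `Rt q T y` says that `y` is a root of the linearised
polynomial `Y^(q^2) - T Y^q + Y`.  `TP` and `BP` are the two explicit polynomials (with `q = p^n`,
`m = p^(n-1)`)

`TP = X^(m(q-1)) - ∑_{i < n-1} c_i X^(p^i (q+1) - 2m)`,   `BP = ∑_{i < n} c_i X^(p^i (q+1))`.

`tr p n x = ∑_{i < n} x^(p^i)` is the trace from the field with `p^n` elements.
-/

set_option autoImplicit false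
open scoped Pointwise

namespace Pool.Agent.Helper54.SL

open Pool.Agent.Helper54.PW

/-- Moore determinant -/
def dd (q : ℕ) {L : Type} [Field L] (a b : L) : L := a * b ^ q - a ^ q * b

/-- roots of the linearised polynomial -/
def Rt (q : ℕ) {L : Type} [Field L] (T y : L) : Prop := y ^ (q ^ 2) - T * y ^ q + y = 0

/-- the polynomial `T` -/
noncomputable def TP (p n : ℕ) {k : Type} [Field k] (c : ℕ → k) : Polynomial k :=
  Polynomial.X ^ (p ^ (n - 1) * (p ^ n - 1)) -
    ∑ i ∈ Finset.range (n - 1),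
      Polynomial.C (c i) * Polynomial.X ^ (p ^ i * (p ^ n + 1) - 2 * p ^ (n - 1))

/-- the polynomial `b` -/
noncomputable def BP (p n : ℕ) {k : Type} [Field k] (c : ℕ → k) : Polynomial k :=
  ∑ i ∈ Finset.range n, Polynomial.C (c i) * Polynomial.X ^ (p ^ i * (p ^ n + 1))

/-- the trace `x + x^p + ... + x^(p^(n-1))` -/
def tr (p n : ℕ) {R : Type} [CommRing R] (x : R) : R := ∑ i ∈ Finset.range n, x ^ (p ^ i)

end Pool.Agent.Helper54.SL
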