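import Pool.Agent.Helper54.SL.Defs
import Pool.Agent.Helper54.PW.Final

set_option autoImplicit false
set_option linter.unusedVariables false
set_option linter.unusedSectionVars false
open scoped Pointwise
open Pool.Agent.Helper54.PW

namespace Pool.Agent.Helper54.SL

/-! ## SL-1 (Roots.lean): algebra of the root space -/
section Roots
variable {p n : ℕ} [Fact p.Prime] {L : Type} [Field L] [CharP L p] {T : L}

theorem rt_add {a b : L} (ha : Rt (p ^ n) T a) (hb : Rt (p ^ n) T b) : Rt (p ^ n) T (a + b) := sorry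
theorem rt_sub {a b : L} (ha : Rt (p ^ n) T a) (hb : Rt (p ^ n) T b) : Rt (p ^ n) T (a - b) := sorry
theorem rt_smul {a c : L} (hc : c ^ (p ^ n) = c) (ha : Rt (p ^ n) T a) : Rt (p ^ n) T (c * a) := sorry
theorem dd_fix {a b : L} (ha : Rt (p ^ n) T a) (hb : Rt (p ^ n) T b) :
    dd (p ^ n) a b ^ (p ^ n) = dd (p ^ n) a b := sorry
theorem rt_decomp {y0 y1 y : L} (h0 : Rt (p ^ n) T y0) (h1 : Rt (p ^ n) T y1)
    (hd : dd (p ^ n) y0 y1 = 1) (hy : Rt (p ^ n) T y) :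
    y = dd (p ^ n) y y1 * y0 + dd (p ^ n) y0 y * y1 := sorry
/-- coordinates are unique -/
theorem coord_unique {y0 y1 a b a' b' : L} (hd : dd (p ^ n) y0 y1 = 1) (ha : a ^ (p ^ n) = a)
    (hb : b ^ (p ^ n) = b) (ha' : a' ^ (p ^ n) = a') (hb' : b' ^ (p ^ n) = b')
    (h : a * y0 + b * y1 = a' * y0 + b' * y1) : a = a' ∧ b = b' := sorry
end Roots

/-! ## SL-2 (Cover.lean): existence of the splitting field, and the Galois property -/
theorem exists_split {p n : ℕ} [Fact p.Prime] (hn : 0 < n) {k M : Type} [Field k] [IsAlgClosed k]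
    [CharP k p] [Field M] [Algebra k M] (T : M) :
    ∃ (L : Type) (_ : Field L) (_ : Algebra M L), FiniteDimensional M L ∧ IsGalois M L ∧
      ∃ y0 y1 : L, Rt (p ^ n) (algebraMap M L T) y0 ∧ Rt (p ^ n) (algebraMap M L T) y1 ∧
        dd (p ^ n) y0 y1 = 1 ∧ IntermediateField.adjoin M {y0, y1} = ⊤ := sorry

/-- `M` contains the field with `p^n` elements because it contains an algebraically closed field -/
theorem isGalois_adjoin {p n : ℕ} [Fact p.Prime] (hn : 0 < n) {k M L : Type} [Field k] [IsAlgClosed k]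
    [CharP k p] [Field M] [Algebra k M] [Field L] [Algebra M L] (T : M) (y0 y1 : L)
    (h0 : Rt (p ^ n) (algebraMap M L T) y0) (h1 : Rt (p ^ n) (algebraMap M L T) y1)
    (hd : dd (p ^ n) y0 y1 = 1) :
    IsGalois M (IntermediateField.adjoin M {y0, y1}) ∧
      FiniteDimensional M (IntermediateField.adjoin M {y0, y1}) := sorry

/-! ## SL-3 (Rep.lean): the representation -/
theorem exists_rep {p n : ℕ} [Fact p.Prime] {M L 𝔽 : Type} [Field M] [Field L] [CharP L p]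
    [Algebra M L] [Field 𝔽] [Fintype 𝔽] (h𝔽 : Fintype.card 𝔽 = p ^ n) (ι : 𝔽 →+* M) (T : M) (y0 y1 : L)
    (h0 : Rt (p ^ n) (algebraMap M L T) y0) (h1 : Rt (p ^ n) (algebraMap M L T) y1)
    (hd : dd (p ^ n) y0 y1 = 1) :
    ∃ ρ : (L ≃ₐ[M] L) →* Matrix.SpecialLinearGroup (Fin 2) 𝔽, ∀ σ : L ≃ₐ[M] L,
      σ y0 = algebraMap M L (ι ((ρ σ).1 0 0)) * y0 + algebraMap M L (ι ((ρ σ).1 1 0)) * y1 ∧
      σ y1 = algebraMap M L (ι ((ρ σ).1 0 1)) * y0 + algebraMap M L (ι ((ρ σ).1 1 1)) * y1 := sorry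

/-! ## SL-4 (FinitePlace.lean): places where `T` is finite -/
theorem unit_of_rt {p n : ℕ} (hp : 1 < p ^ n) {L : Type} [Field L] (A : ValuationSubring L) {T y : L}
    (hT : T ∈ A) (hy : Rt (p ^ n) T y) (hy0 : y ≠ 0) : A.valuation y = 1 := sorry

theorem fixed_of_rt {p n : ℕ} [Fact p.Prime] (hn : 0 < n) {k M F : Type} [Field k] [IsAlgClosed k]
    [CharP k p] [Field M] [Field F] [Algebra k M] [Algebra k F] [Algebra M F] [IsScalarTower k M F]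
    (hF : FF k F) (A : ValuationSubring F) (hA : IsPlace k A) (T : M) (hT : algebraMap M F T ∈ A)
    (σ : F ≃ₐ[M] F) (hσ : σ • A = A) (y : F) (hy : Rt (p ^ n) (algebraMap M F T) y) : σ y = y := sorry

/-! ## SL-5 (Immediate.lean): the decomposition field is immediate -/
theorem immediate {k M F : Type} [Field k] [IsAlgClosed k] [Field M] [Field F] [Algebra k M]
    [Algebra k F] [Algebra M F] [IsScalarTower k M F] [FiniteDimensional M F] [IsGalois M F]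
    (hF : FF k F) (A : ValuationSubring F) (hA : IsPlace k A) (f : F) (hf : f ≠ 0)
    (hfix : ∀ σ : F ≃ₐ[M] F, σ • A = A → σ f = f) :
    ∃ g : M, g ≠ 0 ∧ A.valuation f = A.valuation (algebraMap M F g) := sorry

/-! ## SL-6 (Small.lean): the small root at infinity -/
section Inf
variable {p n : ℕ} [Fact p.Prime] {k L : Type} [Field k] [IsAlgClosed k] [CharP k p] [Field L]
  [Algebra k L] [Algebra (RatFunc k) L] [IsScalarTower k (RatFunc k) L]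

theorem small_root (hp2 : p ≠ 2) (hn : 0 < n) (c : ℕ → k) (hF : FF k L) (A : ValuationSubring L)
    (hA : IsPlace k A)
    (hX : tX k L ∉ A) (z0 z1 : L) (h0 : Rt (p ^ n) (pk k L (TP p n c)) z0)
    (h1 : Rt (p ^ n) (pk k L (TP p n c)) z1) (hd : dd (p ^ n) z0 z1 = 1) :
    ∃ y0 y1 : L, Rt (p ^ n) (pk k L (TP p n c)) y0 ∧ Rt (p ^ n) (pk k L (TP p n c)) y1 ∧
      dd (p ^ n) y0 y1 = 1 ∧ y0 * tX k L ^ (p ^ (n - 1)) - 1 ∈ A.nonunits ∧
      ∀ y, Rt (p ^ n) (pk k L (TP p n c)) y → (∀ a : L, a ^ (p ^ n) = a → y ≠ a * y0) → y ∉ A := sorry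

/-! ## SL-7 (Estimate.lean) -/
theorem estimate (hp2 : p ≠ 2) (hn : 0 < n) (c : ℕ → k) (hc : c (n - 1) = 1) (A : ValuationSubring L)
    (hA : IsPlace k A) (hX : tX k L ∉ A) (y0 : L) (h0 : Rt (p ^ n) (pk k L (TP p n c)) y0)
    (hres : y0 * tX k L ^ (p ^ (n - 1)) - 1 ∈ A.nonunits) :
    (y0 ^ (p ^ n + 1))⁻¹ - pk k L (BP p n c) ∈ A.nonunits := sorry

/-! ## SL-8 (Inertia.lean): the decomposition group at infinity -/
theorem inertia [FiniteDimensional (RatFunc k) L] [IsGalois (RatFunc k) L] (hn : 0 < n)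
    {𝔽 : Type} [Field 𝔽] [Fintype 𝔽] (h𝔽 : Fintype.card 𝔽 = p ^ n) (ι : 𝔽 →+* k) (A₀ : AddSubgroup 𝔽)
    (c : ℕ → k) (b : L)
    (hc : ∀ α : 𝔽, ∃ (e : k) (h : Polynomial k), Polynomial.C (ι α) * BP p n c =
      h ^ p - h + Polynomial.C e * Polynomial.X ^ (p ^ n + 1) ∧ (e = 0 ↔ ∀ a ∈ A₀, tr p n (α * a) = 0))
    (hF : FF k L) (A : ValuationSubring L) (hA : IsPlace k A) (hX : tX k L ∉ A) (y0 y1 : L)
    (hd : dd (p ^ n) y0 y1 = 1)
    (hest : (y0 ^ (p ^ n + 1))⁻¹ - pk k L (BP p n c) ∈ A.nonunits)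
    (hfix : ∀ σ : L ≃ₐ[RatFunc k] L, σ • A = A → σ y0 = y0 ∧
      ∃ a : 𝔽, σ y1 = y1 + algebraMap k L (ι a) * y0) (a : 𝔽) :
    a ∈ A₀ ↔ ∃ σ : L ≃ₐ[RatFunc k] L, σ • A = A ∧ σ y1 = y1 + algebraMap k L (ι a) * y0 := sorry

/-! ## SL-9 (Norm.lean): every orbit of roots meets the line of the small root -/
theorem orbit [FiniteDimensional (RatFunc k) L] [IsGalois (RatFunc k) L] (hn : 0 < n) (c : ℕ → k)
    (A : ValuationSubring L) (hA : IsPlace k A) (hX : tX k L ∉ A) (y0 : L)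
    (hbig : ∀ y, Rt (p ^ n) (pk k L (TP p n c)) y → (∀ a : L, a ^ (p ^ n) = a → y ≠ a * y0) → y ∉ A)
    (y : L) (hy : Rt (p ^ n) (pk k L (TP p n c)) y) (hy0 : y ≠ 0) :
    ∃ (σ : L ≃ₐ[RatFunc k] L) (a : L), a ^ (p ^ n) = a ∧ σ y = a * y0 := sorry
end Inf

/-! ## SL-10 (Consts.lean): choice of the constants -/
theorem exists_consts {p n : ℕ} [Fact p.Prime] (hn : 0 < n) {k 𝔽 : Type} [Field k] [IsAlgClosed k]
    [CharP k p] [Field 𝔽] [Fintype 𝔽] (h𝔽 : Fintype.card 𝔽 = p ^ n) (ι : 𝔽 →+* k)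
    (A₀ : AddSubgroup 𝔽) (hA₀ : A₀ ≠ ⊥) :
    ∃ c : ℕ → k, c (n - 1) = 1 ∧ ∀ α : 𝔽, ∃ (e : k) (h : Polynomial k),
      Polynomial.C (ι α) * BP p n c = h ^ p - h + Polynomial.C e * Polynomial.X ^ (p ^ n + 1) ∧
      (e = 0 ↔ ∀ a ∈ A₀, tr p n (α * a) = 0) := sorry

/-! ## SL-11 (Degree.lean): the degree over `k(T)` -/
theorem finrank_ge {p n : ℕ} [Fact p.Prime] (hn : 0 < n) {k K0 L : Type} [Field k] [IsAlgClosed k]
    [CharP k p] [Field K0] [Algebra k K0] [Field L] [Algebra K0 L] (T : K0)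
    (hT : Transcendental k T) (hK : IntermediateField.adjoin k {T} = ⊤) (y0 y1 : L)
    (h0 : Rt (p ^ n) (algebraMap K0 L T) y0) (h1 : Rt (p ^ n) (algebraMap K0 L T) y1)
    (hd : dd (p ^ n) y0 y1 = 1) :
    p ^ n * ((p ^ n) ^ 2 - 1) ≤ Module.finrank K0 (IntermediateField.adjoin K0 {y0, y1}) := sorry

/-! ## SL-12 (Index.lean): the order of the Galois group over `k(X)` -/
theorem card_ge {p n : ℕ} [Fact p.Prime] (hp5 : 5 ≤ p) (hn : 0 < n) {k L : Type} [Field k]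
    [IsAlgClosed k] [CharP k p] [Field L] [Algebra k L] [Algebra (RatFunc k) L]
    [IsScalarTower k (RatFunc k) L] [FiniteDimensional (RatFunc k) L] [IsGalois (RatFunc k) L]
    (c : ℕ → k) (y0 y1 : L) (h0 : Rt (p ^ n) (pk k L (TP p n c)) y0)
    (h1 : Rt (p ^ n) (pk k L (TP p n c)) y1) (hd : dd (p ^ n) y0 y1 = 1) :
    2 * ((p ^ n) ^ 2 - 1) ≤ Nat.card (L ≃ₐ[RatFunc k] L) := sorry

/-! ## SL-13 (Group.lean): large transitive subgroups of `SL_2` -/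
theorem sl2_top {p n : ℕ} [Fact p.Prime] (hn : 0 < n) {𝔽 : Type} [Field 𝔽] [Fintype 𝔽]
    (h𝔽 : Fintype.card 𝔽 = p ^ n) (H : Subgroup (Matrix.SpecialLinearGroup (Fin 2) 𝔽))
    (htrans : ∀ a b : 𝔽, (a ≠ 0 ∨ b ≠ 0) →
      ∃ g ∈ H, ∃ c : 𝔽, g.1 0 0 * a + g.1 0 1 * b = c ∧ g.1 1 0 * a + g.1 1 1 * b = 0)
    (β : 𝔽) (hβ : β ≠ 0) (u : Matrix.SpecialLinearGroup (Fin 2) 𝔽) (huH : u ∈ H)
    (hu : u.1 = !![1, β; 0, 1]) (hcard : 2 * ((p ^ n) ^ 2 - 1) ≤ Nat.card H) : H = ⊤ := sorry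

/-! ## SL-14 (Sylow.lean): p-subgroups of `SL_2` -/
/-- the subgroup of upper unitriangular matrices with entry in `A₀` -/
theorem exists_conj_unip {p n : ℕ} [Fact p.Prime] (hn : 0 < n) {𝔽 : Type} [Field 𝔽] [Fintype 𝔽]
    (h𝔽 : Fintype.card 𝔽 = p ^ n) (P : Subgroup (Matrix.SpecialLinearGroup (Fin 2) 𝔽))
    (hP : IsPGroup p P) (hP1 : P ≠ ⊥) :
    ∃ (g : Matrix.SpecialLinearGroup (Fin 2) 𝔽) (A₀ : AddSubgroup 𝔽), A₀ ≠ ⊥ ∧
      ∀ h : Matrix.SpecialLinearGroup (Fin 2) 𝔽, h ∈ P ↔ ∃ a ∈ A₀, (g * h * g⁻¹).1 = !![1, a; 0, 1] :=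
  sorry

/-- lifting a p-subgroup along a surjection -/
theorem exists_lift_pgroup {p : ℕ} [Fact p.Prime] {S Q : Type} [Group S] [Finite S] [Group Q]
    (π : S →* Q) (hπ : Function.Surjective π) (P : Subgroup Q) (hP : IsPGroup p P)
    (hS : p ∣ Nat.card S) (hgen : Subgroup.normalClosure (P : Set Q) = ⊤) :
    ∃ P₁ : Subgroup S, IsPGroup p P₁ ∧ P₁ ≠ ⊥ ∧ P₁.map π = P := sorry

end Pool.Agent.Helper54.SL
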